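import Pool.Agent.MWGX.StmtsB
import Pool.Agent.Helper69_MWGQ.CMW

/-!
# MWGX row CTX: normal form of a context (helper2)

Adapted from the row CMW of MWGQ by helper69 (Helper69_MWGQ/CMW.lean), with an arbitrary word in
front of which only the set of letters matters.
-/

set_option autoImplicit false

namespace Pool.Agent.MWGX.H2

open Pool.Agent.Helper14_MV Pool.Agent.Helper2_MV
open Pool.Agent.MWGN (Tau)
open Pool.Agent.MWGQ (pw Gn E0 A0 P0 bd kr krl Rs)
open Pool.Agent.MWGN.H36 (tr ctx tail)
open Pool.Agent.MWGQ.H69 (D D_cons dup mv nf nf_cons form)

section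
variable {β : FIC} {n : ℕ}

theorem norm' (hG : Gn n β) (hI : MWZ.I1 n (RR β)) (y : ℕ) (r : List ℕ) : ∀ (c A₀ : List ℕ),
    (∀ l ∈ c, 2 ≤ (A₀ ++ c ++ y :: r).count l) → y ∈ A₀ →
    ∃ (u₀ : List ℕ) (N : ℕ) (z : ℕ → ℕ) (u : ℕ → List ℕ),
      (∀ i < N, z i ∈ r ∧ z i ∉ A₀) ∧ (∀ i < N, ∀ j < N, z i = z j → i = j) ∧
        ∀ A : List ℕ, (∀ d, d ∈ A ↔ d ∈ A₀) →
          RR β (A ++ (c ++ y :: r)) (A ++ (D n u₀ ++ (nf n z u N ++ y :: r)))
  | [], A₀, _, _ => ⟨[], 0, fun _ => 0, fun _ => [], fun i hi => by omega, fun i hi => by omega,
      fun A _ => RR.refl _⟩
  | d :: c, A₀, h, hy => by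
    by_cases hd : d ∈ A₀ ∨ d ∉ r
    · -- the letter can be raised to the power
      obtain ⟨u₀, N, z, u, h1, h2, h3⟩ := norm' hG hI y r c (A₀ ++ List.replicate (n + 1) d)
        (fun l hl => by
          have := h l (List.mem_cons_of_mem _ hl)
          simp only [List.count_append, List.count_cons, List.count_nil,
            List.count_replicate] at this ⊢
          split_ifs at this ⊢ <;> omega) (List.mem_append_left _ hy)
      refine ⟨d :: u₀, N, z, u, fun i hi => ⟨(h1 i hi).1, fun hm =>
        (h1 i hi).2 (List.mem_append_left _ hm)⟩, h2, fun A hA => ?_⟩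
      have hdouble : RR β (A ++ d :: (c ++ y :: r))
          (A ++ (List.replicate (n + 1) d ++ (c ++ y :: r))) := by
        by_cases hdA : d ∈ A₀
        · exact dup hG ((hA d).2 hdA) _
        · have hdr : d ∉ r := by
            rcases hd with hd | hd
            · exact absurd hd hdA
            · exact hd
          have hdy : d ≠ y := fun e => hdA (e ▸ hy)
          have hc2 := h d (by simp)
          have hdc : d ∈ c := by
            by_contra hdc
            simp only [List.count_append, List.count_cons_self,
              List.count_cons_of_ne (Ne.symm hdy), List.count_eq_zero_of_not_mem hdA,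
              List.count_eq_zero_of_not_mem hdr, List.count_eq_zero_of_not_mem hdc] at hc2
            omega
          obtain ⟨c₁, c₂, hc⟩ := List.append_of_mem hdc
          have hI1 := hI A c₁ (c₂ ++ y :: r) d (fun l hl => by
            have := h l (by rw [hc]; exact List.mem_cons_of_mem _ (List.mem_append_left _ hl))
            rw [hc] at this
            have hl1 : 1 ≤ c₁.count l := List.count_pos_iff.2 hl
            by_cases hlA : l ∈ A₀
            · have hl2 : 1 ≤ A.count l := List.count_pos_iff.2 ((hA l).2 hlA)
              simp only [List.count_append, List.count_cons] at this ⊢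
              omega
            · have hl2 : A₀.count l = 0 := List.count_eq_zero_of_not_mem hlA
              simp only [List.count_append, List.count_cons] at this ⊢
              omega)
          rw [hc]
          simpa only [List.append_assoc, List.cons_append, List.nil_append] using hI1
      refine tr (by simpa only [List.cons_append] using hdouble) ?_
      have h4 := h3 (A ++ List.replicate (n + 1) d) (fun e => by
        rw [List.mem_append, List.mem_append, hA e])
      rw [D_cons]
      simpa only [List.append_assoc, List.cons_append, List.nil_append] using h4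
    · rw [not_or, not_not] at hd
      obtain ⟨hdA, hdr⟩ := hd
      obtain ⟨u₀, N, z, u, h1, h2, h3⟩ := norm' hG hI y r c (A₀ ++ [d]) (fun l hl => by
        have := h l (List.mem_cons_of_mem _ hl)
        simp only [List.count_append, List.count_cons, List.count_nil] at this ⊢
        omega) (List.mem_append_left _ hy)
      refine ⟨[], N + 1, fun i => Nat.casesOn i d z, fun i => Nat.casesOn i u₀ u, ?_, ?_,
        fun A hA => ?_⟩
      · intro i hi
        cases i with
        | zero => exact ⟨hdr, hdA⟩
        | succ i => exact ⟨(h1 i (by omega)).1, fun hm =>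
            (h1 i (by omega)).2 (List.mem_append_left _ hm)⟩
      · intro i hi j hj e
        cases i with
        | zero =>
          cases j with
          | zero => rfl
          | succ j =>
            exact absurd (List.mem_append_right A₀ (by
              show z j ∈ [d]
              have e' : d = z j := e
              rw [e']
              simp)) (h1 j (by omega)).2
        | succ i =>
          cases j with
          | zero =>
            exact absurd (List.mem_append_right A₀ (by
              show z i ∈ [d]
              have e' : z i = d := e
              rw [e']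
              simp)) (h1 i (by omega)).2
          | succ j =>
            have := h2 i (by omega) j (by omega) e
            omega
      · have h4 := h3 (A ++ [d]) (fun e => by
          rw [List.mem_append, List.mem_append, hA e])
        rw [nf_cons]
        simp only [List.append_assoc, List.cons_append, List.nil_append] at h4 ⊢
        exact h4

end

/-- **CTX** -/
theorem ctx (h1 : MWGQ.PwxStmt) : CtxStmt := by
  intro n β hG hI V q c r x y hx hy hMul
  obtain ⟨u₀, N, z, u, h1', h2, h3⟩ := norm' hG hI y r c (V ++ (q ++ [x]))
    (fun l hl => by
      have := hMul l hl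
      simpa only [List.append_assoc, List.cons_append, List.nil_append] using this)
    (List.mem_append_left _ hy)
  cases N with
  | zero =>
    left
    refine ⟨q ++ D n u₀, r, fun V' hV => ?_⟩
    have hx' : x ∈ V' := (hV x).2 hx
    have s1 := h3 (V' ++ (q ++ [x])) (fun d => by
      simp only [List.mem_append, hV d])
    have s2 := mv hG (A := V' ++ q) (x := x) (List.mem_append_left _ hx') u₀ (y :: r)
    refine tr (b := V' ++ q ++ x :: (D n u₀ ++ y :: r)) ?_ ?_
    · simpa only [nf, List.range_zero, List.flatMap_nil, List.append_assoc, List.cons_append,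
        List.nil_append] using s1
    · simpa only [List.append_assoc, List.cons_append, List.nil_append] using s2
  | succ m =>
    right
    obtain ⟨τ, S, rest, t1, t2, t3⟩ := tail z (D n (u m) ++ r) (Finset.range (m + 1))
      (fun i hi => List.mem_append_right _ (h1' i (Finset.mem_range.1 hi)).1)
      (fun i hi j hj e => h2 i (Finset.mem_range.1 hi) j (Finset.mem_range.1 hj) e)
    have hτ : Tau τ m := ⟨t1, fun i => by rw [t2, Finset.mem_range]; omega⟩
    refine ⟨m, τ, q ++ D n u₀, [], S, fun i => [z i], fun i => D n (u i), rest, hτ,
      fun V' hV => ?_⟩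
    have hx' : x ∈ V' := (hV x).2 hx
    have hy' : y ∈ V' := (hV y).2 hy
    have s1 := h3 (V' ++ (q ++ [x])) (fun d => by
      simp only [List.mem_append, hV d])
    have f1 := form h1 hG (A := V' ++ q) (x := x) (y := y) (List.mem_append_left _ hx')
      (List.mem_append_left _ hy') u₀ z u m r
    rw [t3] at f1
    refine tr (b := V' ++ q ++ [x] ++ (D n u₀ ++ (nf n z u (m + 1) ++ y :: r))) ?_ ?_
    · simpa only [List.append_assoc, List.cons_append, List.nil_append] using s1
    · unfold MWGQ.kr
      simpa only [List.append_assoc, List.cons_append, List.nil_append] using f1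

end Pool.Agent.MWGX.H2
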