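import Pool.Agent.MWGX.StmtsA

/-!
# MWGX row DML: two light letters
-/

set_option autoImplicit false

namespace Pool.Agent.MWGX.H2

open Pool.Agent.Helper14_MV Pool.Agent.Helper2_MV
open Pool.Agent.MWK (pre)
open Pool.Agent.MWF (gaml)
open Pool.Agent.MWGN (nn)
open Pool.Agent.MWGQ (pw Gn E0 A0 P0)
open Pool.Agent.MWGR (X It Kaba F1 Dm Ec Es Ea Al0 Rh FE)
open Pool.Agent.MWGX

/-- the difference of two numbers modulo `n` -/
theorem diff_mod (n u v : ℕ) (hn : 1 ≤ n) : u ≡ v + (u + (n - 1) * v) [MOD n] := by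
  have e : v + (u + (n - 1) * v) = u + n * v := by
    obtain ⟨m, rfl⟩ : ∃ m, n = m + 1 := ⟨n - 1, by omega⟩
    rw [Nat.add_sub_cancel]
    ring
  rw [e]
  exact (Nat.modEq_iff_dvd' (Nat.le_add_right _ _)).2 ⟨v, by omega⟩

/-- the difference is divisible by `δ` -/
theorem diff_dvd (n δ u v : ℕ) (hn : 1 ≤ n) (hd : δ ∣ n) (h : u ≡ v [MOD δ]) :
    δ ∣ u + (n - 1) * v := by
  have h1 : u + (n - 1) * v ≡ v + (n - 1) * v [MOD δ] := h.add_right _
  have e : v + (n - 1) * v = n * v := by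
    obtain ⟨m, rfl⟩ : ∃ m, n = m + 1 := ⟨n - 1, by omega⟩
    rw [Nat.add_sub_cancel]
    ring
  rw [e] at h1
  exact (Nat.modEq_zero_iff_dvd.1 (h1.trans (Nat.modEq_zero_iff_dvd.2 (Dvd.dvd.mul_right hd v))))

theorem dml (h1 : CrxStmt) : DmlStmt := by
  intro n θ δ hn hI hD a b i j k i' j' k' T hi hj hk hi' hj' hk' ha hb m1 m2 m3
  set d1 := i + (n - 1) * i' with hd1
  have c1 : δ ∣ d1 := diff_dvd n δ i i' hn hD.dv m1
  obtain ⟨j1, hj1⟩ : ∃ j1, j1 = i + j + (n - 1) * i' + n := ⟨_, rfl⟩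
  have e1 : i' + j1 = i + j + n * i' + n := by
    obtain ⟨m, rfl⟩ : ∃ m, n = m + 1 := ⟨n - 1, by omega⟩
    rw [hj1, Nat.add_sub_cancel]
    ring
  have m4 : i + j ≡ i' + j1 [MOD n] := by
    rw [e1]
    exact (Nat.modEq_iff_dvd' (by omega)).2 ⟨i' + 1, by rw [Nat.mul_add]; omega⟩
  have s1 := h1 n θ hn hI d1 ((hD.iff d1).2 c1) a i j i' j1 [] (b :: (X k ++ T)) hi hj hi'
    (by omega) (diff_mod n i i' hn) m4
    (List.mem_cons_of_mem _ (List.mem_append_right _ ha))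
  have m5 : j1 ≡ j' [MOD δ] := by
    have m6 : i' + j1 ≡ i' + j' [MOD δ] := (m4.symm.of_dvd hD.dv).trans m2
    exact Nat.ModEq.add_left_cancel' _ m6
  set d2 := j1 + (n - 1) * j' with hd2
  have c2 : δ ∣ d2 := diff_dvd n δ j1 j' hn hD.dv m5
  have m7 : j1 + k ≡ j' + k' [MOD n] := by
    have m8 : i' + (j1 + k) ≡ i' + (j' + k') [MOD n] := by
      rw [← Nat.add_assoc, ← Nat.add_assoc]
      exact (m4.symm.add_right k).trans m3
    exact Nat.ModEq.add_left_cancel' _ m8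
  have s2 := h1 n θ hn hI d2 ((hD.iff d2).2 c2) b j1 k j' k' (X i' ++ [a]) T (by omega) hk hj'
    hk' (diff_mod n j1 j' hn) m7 hb
  simp only [List.nil_append] at s1
  simp only [List.append_assoc, List.cons_append, List.nil_append] at s1 s2
  exact θ.trans s1 s2

end Pool.Agent.MWGX.H2
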